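import Mathlib
import Pool.Agent.Run7.h626.Conv3

/-!
# Hjorth's question on continuous images of coanalytic sets

For a countable discrete space `D` the following are equivalent (in ZFC):

1. Hjorth's hypothesis: every uncountable boldface Sigma-1-2 set `B` is a continuous image of
   `C ⊕ D` for every non-Borel boldface Pi-1-1 set `C`;
2. Baire space is a continuous image of `C ⊕ D` for every non-Borel Pi-1-1 set `C`;
3. every nonempty Sigma-1-2 set is a continuous image of every non-Borel Pi-1-1 set `C`;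
4. every uncountable Pi-1-1 set has a nonempty perfect subset.
-/

set_option autoImplicit false

namespace Pool.Agent.Results.MP_73ea52_lc.HjorthImages

open MeasureTheory Set Run7.h626

/-- `C` is boldface Pi-1-1 (coanalytic): its complement is analytic. -/
def IsPi11 (C : Set (ℕ → ℕ)) : Prop := AnalyticSet Cᶜ

/-- `B` is boldface Sigma-1-2: it is the projection of a coanalytic subset of the plane. -/
def IsSigma12 (B : Set (ℕ → ℕ)) : Prop :=
  ∃ Q : Set ((ℕ → ℕ) × (ℕ → ℕ)), AnalyticSet Qᶜ ∧ B = Prod.fst '' Q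

/-- `C` is Borel. -/
def IsBorel (C : Set (ℕ → ℕ)) : Prop := @MeasurableSet (ℕ → ℕ) (borel (ℕ → ℕ)) C

/-- `B` is a continuous image of the topological space `X`. -/
def IsContinuousImage (B : Set (ℕ → ℕ)) (X : Type*) [TopologicalSpace X] : Prop :=
  ∃ f : X → (ℕ → ℕ), Continuous f ∧ range f = B

/-- Hjorth's hypothesis for the space `D`: every uncountable Sigma-1-2 set `B` is a continuous image
of `C ⊕ D` for every non-Borel Pi-1-1 set `C`. -/
def HjorthHypothesis (D : Type*) [TopologicalSpace D] : Prop :=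
  ∀ B C : Set (ℕ → ℕ), IsSigma12 B → ¬ B.Countable → IsPi11 C → ¬ IsBorel C →
    IsContinuousImage B (↥C ⊕ D)

/-- The perfect set property for coanalytic sets: every uncountable Pi-1-1 set has a nonempty perfect
subset. -/
def CoanalyticPSP : Prop :=
  ∀ A : Set (ℕ → ℕ), IsPi11 A → ¬ A.Countable → ∃ K : Set (ℕ → ℕ), K ⊆ A ∧ K.Nonempty ∧ Perfect K

theorem isBorel_iff {C : Set (ℕ → ℕ)} : IsBorel C ↔ MeasurableSet C := by
  unfold IsBorel
  rw [← BorelSpace.measurable_eq]

theorem strong_of_psp (h : CoanalyticPSP) (B C : Set (ℕ → ℕ)) (hB : IsSigma12 B)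
    (hBne : B.Nonempty) (hC : IsPi11 C) (hCb : ¬ IsBorel C) : IsContinuousImage B ↥C := by
  obtain ⟨Q, hQ, rfl⟩ := hB
  have hd : Continuous fun w : ℕ → ℕ => ((fun n => w (2 * n), fun n => w (2 * n + 1)) :
      (ℕ → ℕ) × (ℕ → ℕ)) := by fun_prop
  obtain ⟨b, q, hq, -⟩ := hBne
  have hP : AnalyticSet ((fun w : ℕ → ℕ => ((fun n => w (2 * n), fun n => w (2 * n + 1)) :
      (ℕ → ℕ) × (ℕ → ℕ))) ⁻¹' Q)ᶜ := by
    rw [← preimage_compl]
    exact hQ.preimage hd
  have hCna : ¬ AnalyticSet C := fun hCa => hCb (isBorel_iff.2 (hCa.measurableSet_of_compl hC))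
  obtain ⟨f, hf, hfC⟩ := main_surj h hC hCna hP ⟨inter q.1 q.2, by
    show (_, _) ∈ Q
    simp only [inter_even, inter_odd]
    exact hq⟩
  refine ⟨fun x n => f x (2 * n), ?_, ?_⟩
  · have h1 : Continuous fun x : C => f x := continuousOn_iff_continuous_domRestrict.1 hf
    have h2 : Continuous fun (y : ℕ → ℕ) n => y (2 * n) := by fun_prop
    exact h2.comp h1
  · ext y
    constructor
    · rintro ⟨⟨x, hx⟩, rfl⟩
      have h2 : f x ∈ f '' C := ⟨x, hx, rfl⟩
      rw [hfC] at h2
      exact ⟨_, h2, rfl⟩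
    · rintro ⟨q', hq', rfl⟩
      have h2 : inter q'.1 q'.2 ∈ f '' C := by
        rw [hfC]
        show (_, _) ∈ Q
        simp only [inter_even, inter_odd]
        exact hq'
      obtain ⟨x, hx, hfx⟩ := h2
      refine ⟨⟨x, hx⟩, ?_⟩
      simp only [hfx, inter_even]

/-- **Characterization of Hjorth's hypothesis.** For a countable discrete space `D` the following
are equivalent: Hjorth's hypothesis; its instance where `B` is the whole Baire space; every nonempty
Sigma-1-2 set is a continuous image of every non-Borel Pi-1-1 set; the perfect set property for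
Pi-1-1 sets. -/
theorem result (D : Type*) [TopologicalSpace D] [DiscreteTopology D] [Countable D] :
    List.TFAE [
      HjorthHypothesis D,
      ∀ C : Set (ℕ → ℕ), IsPi11 C → ¬ IsBorel C → IsContinuousImage univ (↥C ⊕ D),
      ∀ B C : Set (ℕ → ℕ), IsSigma12 B → B.Nonempty → IsPi11 C → ¬ IsBorel C →
        IsContinuousImage B ↥C,
      CoanalyticPSP] := by
  tfae_have 1 → 2 := by
    intro h C hC hCb
    refine h univ C ⟨univ, ?_, by simp⟩ ?_ hC hCb
    · rw [compl_univ]
      exact analyticSet_empty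
    · intro hc
      obtain ⟨s, hs⟩ := exists_shift_notMem (fun _ => 0) hc
      exact hs (mem_univ _)
  tfae_have 2 → 4 := by
    intro h
    refine psp_of_HU (D := D) fun C hC hCb => ?_
    obtain ⟨f, hf, hr⟩ := h C hC (fun hb => hCb (isBorel_iff.1 hb))
    exact ⟨f, hf, range_eq_univ.1 hr⟩
  tfae_have 4 → 3 := fun h B C hB hBne hC hCb => strong_of_psp h B C hB hBne hC hCb
  tfae_have 3 → 1 := by
    intro h B C hB hBunc hC hCb
    have hne : B.Nonempty := by
      by_contra hne
      rw [not_nonempty_iff_eq_empty] at hne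
      rw [hne] at hBunc
      exact hBunc countable_empty
    obtain ⟨f, hf, hr⟩ := h B C hB hne hC hCb
    obtain ⟨b, hb⟩ := hne
    refine ⟨Sum.elim f fun _ => b, hf.sumElim continuous_const, ?_⟩
    rw [Sum.elim_range, hr, union_eq_left]
    rintro _ ⟨d, rfl⟩
    exact hb
  tfae_finish

end Pool.Agent.Results.MP_73ea52_lc.HjorthImages
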